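import Mathlib
import Pool.Agent.H8.TorusA
import Pool.Agent.H8.TorusB

open Set Filter Topology NumberField

namespace Pool.Agent.Results.MP_7de521_nt.SkewTorus

/-- Complex points `(K ⊗ ℂ)ˣ = (ℂˣ)^{Hom(K, ℂ)}` of the torus `R_{K/ℚ} 𝔾_m`. -/
abbrev CPts (K : Type) [Field K] : Type := (K →+* ℂ) → ℂˣ

/-- `w` is fixed by complex conjugation. -/
def IsReal {K : Type} [Field K] (w : CPts K) : Prop :=
  ∀ σ, (w (ComplexEmbedding.conjugate σ) : ℂ) = (starRingEnd ℂ) (w σ)

theorem IsReal.mul {K : Type} [Field K] {a b : CPts K} (ha : IsReal a) (hb : IsReal b) :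
    IsReal (a * b) := fun σ => by simp [ha σ, hb σ]

theorem isReal_one {K : Type} [Field K] : IsReal (1 : CPts K) := fun σ => by simp

theorem IsReal.inv {K : Type} [Field K] {a : CPts K} (ha : IsReal a) : IsReal a⁻¹ :=
  fun σ => by simp [ha σ]

/-- Real points `(K ⊗ ℝ)ˣ`: the points fixed by complex conjugation. -/
def realPts (K : Type) [Field K] : Subgroup (CPts K) where
  carrier := {w | IsReal w}
  mul_mem' := IsReal.mul
  one_mem' := isReal_one
  inv_mem' := IsReal.inv

/-- The point `(σ x)_σ`. -/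
def pt {K : Type} [Field K] (x : Kˣ) : CPts K := fun σ => Units.map (σ : K →* ℂ) x

theorem pt_mem {K : Type} [Field K] (x : Kˣ) : pt x ∈ realPts K := fun σ => by simp [pt]

/-- The point `(σ x)_σ` as a real point. -/
def rpt {K : Type} [Field K] (x : Kˣ) : realPts K := ⟨pt x, pt_mem x⟩

theorem rpt_one {K : Type} [Field K] : rpt (1 : Kˣ) = 1 := by ext; simp [rpt, pt]

theorem rpt_mul {K : Type} [Field K] (x y : Kˣ) : rpt (x * y) = rpt x * rpt y := by
  ext; simp [rpt, pt]

/-- The inclusion `Kˣ = 𝒜(ℚ) → 𝒜(ℝ)`, `x ↦ (σ x)_σ`. -/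
def emb (K : Type) [Field K] : Kˣ →* realPts K where
  toFun := rpt
  map_one' := rpt_one
  map_mul' := rpt_mul

/-- `B` is an algebraic subgroup: a subgroup that is the common zero set of a family of
polynomials in the coordinates. -/
def IsAlgebraic {K : Type} [Field K] (B : Subgroup (CPts K)) : Prop :=
  ∃ S : Set (MvPolynomial (K →+* ℂ) ℂ),
    ∀ w, w ∈ B ↔ ∀ f ∈ S, MvPolynomial.eval (fun σ => (w σ : ℂ)) f = 0

/-- The identity component of a subgroup `H` of a topological group, as a subgroup. -/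
def idComp {G : Type} [Group G] [TopologicalSpace G] [IsTopologicalGroup G] (H : Subgroup G) :
    Subgroup G :=
  (Subgroup.connectedComponentOfOne H).map H.subtype

open Pool.Agent.H8.Torus

section
variable {K : Type} [Field K]

/-- log vector -/
noncomputable def lv (w : CPts K) (σ : K →+* ℂ) : ℝ := Real.log ‖(w σ : ℂ)‖

theorem lv_mul (a b : CPts K) : lv (a * b) = lv a + lv b := by
  funext σ
  simp only [lv, Pi.mul_apply, Units.val_mul, norm_mul, Pi.add_apply]
  exact Real.log_mul (by simp) (by simp)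

theorem lv_one : lv (1 : CPts K) = 0 := by funext σ; simp [lv]

theorem lv_inv (a : CPts K) : lv a⁻¹ = -lv a := by funext σ; simp [lv]

theorem lv_zpow (a : CPts K) (n : ℤ) : lv (a ^ n) = (n : ℝ) • lv a := by
  funext σ; simp [lv, Real.log_zpow]

theorem lv_pow (a : CPts K) (n : ℕ) : lv (a ^ n) = (n : ℝ) • lv a := by
  funext σ; simp [lv]

theorem lv_cont : Continuous (lv : CPts K → _) := by
  refine continuous_pi fun σ => ?_
  refine Continuous.log (Units.continuous_val.comp (continuous_apply σ)).norm fun w => by simp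

theorem real_closed : IsClosed (realPts K : Set (CPts K)) := by
  have : (realPts K : Set (CPts K)) =
      ⋂ σ, {w | (w (ComplexEmbedding.conjugate σ) : ℂ) = (starRingEnd ℂ) (w σ)} := by
    ext w; simp only [mem_iInter]; rfl
  rw [this]
  exact isClosed_iInter fun σ => isClosed_eq (Units.continuous_val.comp (continuous_apply _))
    (Complex.continuous_conj.comp (Units.continuous_val.comp (continuous_apply _)))

theorem annulus : IsCompact {u : ℂˣ | |Real.log ‖(u : ℂ)‖| ≤ 1} := by
  rw [Units.isEmbedding_val₀.isCompact_iff]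
  have : Units.val '' {u : ℂˣ | |Real.log ‖(u : ℂ)‖| ≤ 1} =
      Metric.closedBall 0 (Real.exp 1) \ Metric.ball 0 (Real.exp (-1)) := by
    ext z
    simp only [mem_image, mem_setOf_eq, mem_diff, mem_closedBall_zero_iff, mem_ball_zero_iff, not_lt]
    constructor
    · rintro ⟨u, hu, rfl⟩
      have hp : 0 < ‖(u : ℂ)‖ := by simp
      rw [abs_le, Real.le_log_iff_exp_le hp, Real.log_le_iff_le_exp hp] at hu
      exact ⟨hu.2, hu.1⟩
    · rintro ⟨h1, h2⟩
      have hp : 0 < ‖z‖ := (Real.exp_pos _).trans_le h2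
      refine ⟨Units.mk0 z (norm_pos_iff.1 hp), ?_, rfl⟩
      rw [Units.val_mk0, abs_le, Real.le_log_iff_exp_le hp, Real.log_le_iff_le_exp hp]
      exact ⟨h2, h1⟩
  rw [this]
  exact (isCompact_closedBall _ _).diff Metric.isOpen_ball

open Classical in
/-- sign vector -/
noncomputable def sg (s : ℝ) (x : K) (σ : K →+* ℂ) : ℤ :=
  if σ x = s then 1 else if σ x = -s then -1 else 0

theorem sg_conj (s : ℝ) (x : K) (σ : K →+* ℂ) :
    sg s x (ComplexEmbedding.conjugate σ) = sg s x σ := by
  have h1 : (starRingEnd ℂ) (σ x) = s ↔ σ x = s := by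
    constructor <;> intro h
    · rw [← Complex.conj_conj (σ x), h]; simp
    · simp [h]
  have h2 : (starRingEnd ℂ) (σ x) = -s ↔ σ x = -s := by
    constructor <;> intro h
    · rw [← Complex.conj_conj (σ x), h]; simp
    · simp [h]
  simp only [sg, ComplexEmbedding.conjugate_coe_eq, h1, h2]

theorem sg_abs (s : ℝ) (x : K) (σ : K →+* ℂ) : |(sg s x σ : ℝ)| ≤ 1 := by
  unfold sg; split_ifs <;> simp

theorem log_u {s : ℝ} (h0 : 0 < s) (h1 : s < 1) (x : K) (σ : K →+* ℂ)
    (h : σ x = s ∨ σ x = -s ∨ (σ x).re = 0) (n : ℕ) (hn : 1 ≤ n) :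
    (n + x ≠ 0 ∧ n - x ≠ 0) ∧ Real.log ‖σ ((n + x) / (n - x))‖ = sg s x σ * lg s n := by
  have hn' : (1 : ℝ) ≤ n := by exact_mod_cast hn
  have hre : |(σ x).re| < 1 := by
    rcases h with h | h | h <;> rw [h] <;> simp [abs_of_pos h0, h1]
  rw [abs_lt] at hre
  refine ⟨⟨fun h' => ?_, fun h' => ?_⟩, ?_⟩
  · have := congrArg (fun y => (σ y).re) h'
    simp at this; linarith
  · have := congrArg (fun y => (σ y).re) h'
    simp at this; linarith
  have p1 : 0 < n + s := by linarith
  have p2 : 0 < n - s := by linarith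
  simp only [map_div₀, map_add, map_sub, map_natCast, sg, lg]
  by_cases a : σ x = s
  · rw [if_pos a, a]
    have : ((n : ℂ) + s) / (n - s) = (((n + s) / (n - s) : ℝ) : ℂ) := by push_cast; rfl
    rw [this, Complex.norm_real, Real.norm_eq_abs, abs_of_pos (by positivity)]; simp
  by_cases b : σ x = -s
  · rw [if_neg a, if_pos b, b]
    have : ((n : ℂ) + -s) / (n - -s) = ((((n + s) / (n - s))⁻¹ : ℝ) : ℂ) := by
      rw [inv_div]; push_cast; ring
    rw [this, Complex.norm_real, Real.norm_eq_abs, abs_of_pos (by positivity), Real.log_inv]; simp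
  · have c : (σ x).re = 0 := by tauto
    rw [if_neg a, if_neg b, norm_div]
    have : ‖(n : ℂ) + σ x‖ = ‖(n : ℂ) - σ x‖ := by
      rw [← Complex.norm_conj]; congr 1
      apply Complex.ext <;> simp [c]
    rw [this]
    by_cases d : ‖(n : ℂ) - σ x‖ = 0
    · simp [d]
    · simp [div_self d]

/-- the linear map `z ↦ Σ z_j e_j` -/
noncomputable def TT (s : ℝ) (S : Fin 3 → K) : (Fin 3 → ℝ) →ₗ[ℝ] ((K →+* ℂ) → ℝ) where
  toFun z σ := z 0 * sg s (S 0) σ + z 1 * sg s (S 1) σ + z 2 * sg s (S 2) σ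
  map_add' a b := by funext σ; simp; ring
  map_smul' c a := by funext σ; simp; ring

theorem TT_apply (s : ℝ) (S : Fin 3 → K) (z : Fin 3 → ℝ) (σ : K →+* ℂ) :
    TT s S z σ = z 0 * sg s (S 0) σ + z 1 * sg s (S 1) σ + z 2 * sg s (S 2) σ := rfl

theorem log_chi [NumberField K] (w : CPts K) (m : (K →+* ℂ) →₀ ℕ) :
    Real.log ‖m.prod fun i e => (w i : ℂ) ^ e‖ = ∑ σ, m σ * lv w σ := by
  rw [Finsupp.prod_fintype _ _ (by simp), norm_prod, Real.log_prod (by simp)]
  simp [lv]

theorem main [NumberField K] {s : ℝ} (h0 : 0 < s) (h1 : s < 1)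
    (hs : s ^ 6 + 4 * s ^ 4 + 2 * s ^ 2 - 2 = 0) (S : Fin 3 → K)
    (hS : ∀ j, S j ^ 6 + 4 * S j ^ 4 + 2 * S j ^ 2 - 2 = 0)
    (hd : ∀ i j, S i ^ 2 = S j ^ 2 → i = j)
    (hr : ∀ r : ℂ, r ^ 6 + 4 * r ^ 4 + 2 * r ^ 2 - 2 = 0 → r = s ∨ r = -s ∨ r.re = 0) :
    ∃ L : Subgroup Kˣ, L.FG ∧ ∀ B : Subgroup (CPts K), IsAlgebraic B →
      ¬ (idComp (L.map (emb K)).topologicalClosure ≤ B.subgroupOf (realPts K) ∧
        (idComp (L.map (emb K)).topologicalClosure).relIndex (B.subgroupOf (realPts K)) ≠ 0) := by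
  classical
  have hσ : ∀ (j) (σ : K →+* ℂ), σ (S j) = s ∨ σ (S j) = -s ∨ (σ (S j)).re = 0 := fun j σ =>
    hr _ (by simpa [map_ofNat] using congrArg σ (hS j))
  have hex : ∀ j, ∃ σ : K →+* ℂ, σ (S j) = s := by
    intro j
    have : (s : ℂ) ∈ (minpoly ℚ (S j)).rootSet ℂ := by
      rw [minpoly_eq _ (hS j), Polynomial.mem_rootSet]
      refine ⟨(fZ_monic.map _).ne_zero, ?_⟩
      rw [Polynomial.aeval_map_algebraMap, aeval_fZ]
      exact_mod_cast hs
    rw [← Embeddings.range_eval_eq_rootSet_minpoly K ℂ (S j)] at this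
    exact this
  choose τ hτ using hex
  have hsg : ∀ i j, sg s (S i) (τ j) = if i = j then 1 else 0 := by
    intro i j
    by_cases hij : i = j
    · subst hij; simp [sg, hτ]
    · have : (τ j (S i)) ^ 2 ≠ (s : ℂ) ^ 2 := by
        rw [← hτ j, ← map_pow, ← map_pow]
        exact fun h => hij (hd _ _ ((τ j).injective h))
      rw [if_neg hij, sg, if_neg (fun h => this (by rw [h])),
        if_neg (fun h => this (by rw [h]; ring))]
  have hT : ∀ z j, TT s S z (τ j) = z j := by
    intro z j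
    rw [TT_apply, hsg, hsg, hsg]
    fin_cases j <;> simp
  obtain ⟨u, hu⟩ : ∃ u : ℕ → Fin 3 → Kˣ, ∀ n, 1 ≤ n → ∀ j σ,
      lv (emb K (u n j) : CPts K) σ = sg s (S j) σ * lg s n := by
    refine ⟨fun n j => if h : (n + S j) / (n - S j) ≠ 0 then Units.mk0 _ h else 1,
      fun n hn j σ => ?_⟩
    obtain ⟨⟨a, b⟩, c⟩ := log_u h0 h1 (S j) σ (hσ j σ) n hn
    simp only [dif_pos (div_ne_zero a b)]
    exact c
  set a1 := lg s 1 with ha1
  set a2 := lg s 2 with ha2
  set a3 := lg s 3 with ha3
  set g1 := u 3 1 * (u 2 2)⁻¹ with hg1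
  set g2 := u 1 2 * (u 3 0)⁻¹ with hg2
  set g3 := u 2 0 * (u 1 1)⁻¹ with hg3
  have l1 : lv (emb K g1 : CPts K) = TT s S ![0, a3, -a2] := by
    funext σ
    simp [hg1, lv_mul, lv_inv, hu, TT_apply]; ring
  have l2 : lv (emb K g2 : CPts K) = TT s S ![-a3, 0, a1] := by
    funext σ
    simp [hg2, lv_mul, lv_inv, hu, TT_apply]; ring
  have l3 : lv (emb K g3 : CPts K) = TT s S ![a2, -a1, 0] := by
    funext σ
    simp [hg3, lv_mul, lv_inv, hu, TT_apply]; ring
  set L : Subgroup Kˣ := Subgroup.closure {g1, g2, g3} with hL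
  refine ⟨L, (Subgroup.fg_iff _).2 ⟨_, rfl, by simp⟩, ?_⟩
  set Lb := (L.map (emb K)).topologicalClosure with hLb
  let W : Submodule ℝ (Fin 3 → ℝ) :=
    { carrier := {z | z 0 * a1 + z 1 * a2 + z 2 * a3 = 0}
      add_mem' := fun {a b} ha hb => by
        simp only [mem_setOf_eq, Pi.add_apply] at *; linear_combination ha + hb
      zero_mem' := by simp
      smul_mem' := fun c a ha => by
        simp only [mem_setOf_eq, Pi.smul_apply, smul_eq_mul] at *; linear_combination c * ha }
  have hW : ∀ z, z ∈ W ↔ z 0 * a1 + z 1 * a2 + z 2 * a3 = 0 := fun z => Iff.rfl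
  let Q : Subgroup (realPts K) :=
    { carrier := {w | lv (w : CPts K) ∈ W.map (TT s S)}
      mul_mem' := fun {a b} ha hb => by
        simp only [mem_setOf_eq, Subgroup.coe_mul, lv_mul] at *; exact add_mem ha hb
      one_mem' := by simp only [mem_setOf_eq, Subgroup.coe_one, lv_one]; exact zero_mem _
      inv_mem' := fun {a} ha => by
        simp only [mem_setOf_eq, Subgroup.coe_inv, lv_inv] at *; exact neg_mem ha }
  have hQ : Lb ≤ Q := by
    apply Subgroup.topologicalClosure_minimal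
    · rw [hL, MonoidHom.map_closure, Subgroup.closure_le]
      rintro _ ⟨x, hx, rfl⟩
      rcases hx with rfl | rfl | rfl
      · exact ⟨_, (hW _).2 (by simp; ring), l1.symm⟩
      · exact ⟨_, (hW _).2 (by simp; ring), l2.symm⟩
      · exact ⟨_, (hW _).2 (by simp; ring), l3.symm⟩
    · exact (W.map (TT s S)).closed_of_finiteDimensional.preimage
        (lv_cont.comp continuous_subtype_val)
  have hLc : IsClosed (Lb : Set (realPts K)) := Subgroup.isClosed_topologicalClosure _
  have hce : IsClosedEmbedding (fun w : Lb => ((w : realPts K) : CPts K)) :=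
    real_closed.isClosedEmbedding_subtypeVal.comp hLc.isClosedEmbedding_subtypeVal
  have ha1p : 0 < a1 := by
    rw [ha1, lg]; apply Real.log_pos
    rw [lt_div_iff₀ (by simp; linarith)]; linarith
  obtain ⟨h, hh, hh0⟩ := exists_component (G := Lb)
    (fun w => ‖lv ((w : realPts K) : CPts K)‖) (lv_cont.comp hce.continuous).norm
    (fun _ => norm_nonneg _) (fun g n => by simp [lv_pow, norm_smul])
    (fun g h => by simp only [Subgroup.coe_mul, lv_mul]; exact norm_add_le _ _)
    (by
      have := hce.isCompact_preimage (isCompact_univ_pi fun _ : K →+* ℂ => annulus)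
      convert this using 1
      ext w
      simp only [mem_setOf_eq, pi_norm_le_iff_of_nonneg zero_le_one, mem_preimage, Set.mem_pi,
        mem_univ, true_implies, Real.norm_eq_abs, lv])
    (by
      intro ε hε
      set c := 2 * a1 + |a2| + |a3| with hc
      have hc0 : 0 < c := by positivity
      obtain ⟨q, m, n, hq, hm, hn⟩ := small_comb (a2 / a1) (a3 / a1) (ε / (2 * c)) (by positivity)
      have hmem : g1 ^ (q : ℤ) * g2 ^ m * g3 ^ n ∈ L :=
        mul_mem (mul_mem (zpow_mem (Subgroup.subset_closure (by simp)) _)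
          (zpow_mem (Subgroup.subset_closure (by simp)) _))
          (zpow_mem (Subgroup.subset_closure (by simp)) _)
      refine ⟨⟨emb K (g1 ^ (q : ℤ) * g2 ^ m * g3 ^ n),
        Subgroup.le_topologicalClosure _ ⟨_, hmem, rfl⟩⟩, ?_⟩
      set x := q * (a2 / a1) - m with hx
      set y := q * (a3 / a1) - n with hy
      have e : lv (emb K (g1 ^ (q : ℤ) * g2 ^ m * g3 ^ n) : CPts K) =
          TT s S ![a3 * x - a2 * y, a1 * y, -(a1 * x)] := by
        simp only [map_mul, map_zpow, Subgroup.coe_mul, Subgroup.coe_zpow, lv_mul, lv_zpow, l1, l2,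
          l3, ← map_smul, ← map_add]
        congr 1
        funext j
        fin_cases j <;> simp [hx, hy] <;> field_simp <;> ring
      simp only [e]
      constructor
      · rw [norm_pos_iff]
        intro hz
        have := hT ![a3 * x - a2 * y, a1 * y, -(a1 * x)] 2
        rw [hz] at this
        have h2 : ((m : ℤ) : ℝ) * a1 + ((-q : ℤ) : ℝ) * a2 + ((0 : ℤ) : ℝ) * a3 = 0 := by
          have h3 : -(a1 * x) = 0 := by simpa using this.symm
          rw [hx] at h3
          field_simp at h3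
          push_cast; linarith
        have := (indep_int h0 h1 hs _ _ _ h2).2.1
        omega
      · have hb : ‖TT s S ![a3 * x - a2 * y, a1 * y, -(a1 * x)]‖ ≤ c * (ε / (2 * c)) := by
          rw [pi_norm_le_iff_of_nonneg (by positivity)]
          intro σ
          rw [TT_apply, Real.norm_eq_abs]
          have b : ∀ (t : ℝ) j, |t * sg s (S j) σ| ≤ |t| := fun t j => by
            rw [abs_mul]; exact mul_le_of_le_one_right (abs_nonneg _) (sg_abs _ _ _)
          refine (abs_add_three _ _ _).trans ((add_le_add_three (b _ _) (b _ _) (b _ _)).trans ?_)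
          simp only [Matrix.cons_val_zero, Matrix.cons_val_one, Matrix.cons_val, abs_neg, abs_mul,
            abs_of_pos ha1p]
          have := abs_sub (a3 * x) (a2 * y)
          rw [abs_mul, abs_mul] at this
          have i1 := mul_le_mul_of_nonneg_left hm.le (abs_nonneg a3)
          have i2 := mul_le_mul_of_nonneg_left hn.le (abs_nonneg a2)
          have i3 := mul_le_mul_of_nonneg_left hm.le ha1p.le
          have i4 := mul_le_mul_of_nonneg_left hn.le ha1p.le
          rw [hc]; linarith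
        have : c * (ε / (2 * c)) = ε / 2 := by field_simp
        linarith)
  rintro B ⟨P, hP⟩ ⟨hle, hind⟩
  have hhB : ((h : realPts K) : CPts K) ∈ B := hle ⟨h, hh, rfl⟩
  obtain ⟨z, -, hz⟩ := hQ h.2
  have hz0 : ∃ j, z j ≠ 0 := by
    by_contra hc
    push Not at hc
    have : z = 0 := funext hc
    rw [this, map_zero] at hz
    exact hh0 (by simp only [← hz, norm_zero])
  obtain ⟨j, hj⟩ := hz0
  obtain ⟨μ, hμ⟩ := Module.Projective.exists_dual_ne_zero ℚ hj
  set r : Fin 3 → ℝ := fun i => (μ (z i) : ℝ) with hr'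
  let w0 : realPts K := ⟨fun σ => Units.mk0 ((Real.exp (TT s S r σ) : ℝ) : ℂ) (by simp), fun σ => by
    simp only [Units.val_mk0, Complex.conj_ofReal, TT_apply, sg_conj]⟩
  have hw0 : lv (w0 : CPts K) = TT s S r := by
    funext σ
    simp only [lv, w0, Units.val_mk0, Complex.norm_real, Real.norm_eq_abs, Real.abs_exp,
      Real.log_exp]
  have hw0B : (w0 : CPts K) ∈ B := by
    refine (hP _).2 fun f hf => dedekind B f (fun w hw => (hP w).1 hw f hf) _ fun m m' hm => ?_
    have e1 := congrArg (fun χ : B →* ℂ => Real.log ‖χ ⟨_, hhB⟩‖) hm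
    simp only [chi, MonoidHom.coe_mk, OneHom.coe_mk, log_chi, ← hz] at e1
    set d : Fin 3 → ℤ := fun i => ∑ σ, ((m σ : ℤ) - m' σ) * sg s (S i) σ with hd'
    have e0 : ∀ t : Fin 3 → ℝ, ∑ σ, m σ * TT s S t σ - ∑ σ, m' σ * TT s S t σ =
        d 0 * t 0 + d 1 * t 1 + d 2 * t 2 := by
      intro t
      simp only [hd', TT_apply]
      push_cast
      simp only [Finset.sum_mul, ← Finset.sum_add_distrib, ← Finset.sum_sub_distrib]
      exact Finset.sum_congr rfl fun σ _ => by ring
    have e2 : (d 0 : ℚ) • z 0 + (d 1 : ℚ) • z 1 + (d 2 : ℚ) • z 2 = 0 := by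
      have := e0 z
      rw [e1, sub_self] at this
      simpa [Rat.smul_def] using this.symm
    have e3 := congrArg μ e2
    simp only [map_add, map_smul, smul_eq_mul, map_zero] at e3
    have e4 : ∑ σ, m σ * TT s S r σ = ∑ σ, m' σ * TT s S r σ := by
      rw [← sub_eq_zero, e0]
      simp only [hr']
      exact_mod_cast e3
    have e5 : ∀ m : (K →+* ℂ) →₀ ℕ, (m.prod fun i e => (((w0 : CPts K) i : ℂˣ) : ℂ) ^ e) =
        ((Real.exp (∑ σ, m σ * TT s S r σ) : ℝ) : ℂ) := by
      intro m
      rw [Finsupp.prod_fintype _ _ (by simp), Real.exp_sum]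
      simp only [w0, Units.val_mk0, Real.exp_nat_mul]
      norm_cast
    rw [e5, e5, e4]
  obtain ⟨N, hN, -, hN2⟩ := Subgroup.exists_pow_mem_of_relIndex_ne_zero hind
    (show w0 ∈ B.subgroupOf (realPts K) from hw0B)
  obtain ⟨⟨k, -, hk⟩, -⟩ := hN2
  have hk2 : w0 ^ N ∈ Lb := by rw [← hk]; exact k.2
  obtain ⟨t, ht, ht2⟩ := hQ hk2
  rw [Subgroup.coe_pow, lv_pow, hw0, ← map_smul] at ht2
  have ht3 : ∀ i, t i = N * r i := fun i => by
    rw [← hT t i, ht2, hT]; simp
  rw [SetLike.mem_coe, hW, ht3, ht3, ht3] at ht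
  have hN' : (N : ℝ) ≠ 0 := by exact_mod_cast hN.ne'
  have := indep_rat h0 h1 hs (μ (z 0)) (μ (z 1)) (μ (z 2)) (by
    apply mul_left_cancel₀ hN'
    simp only [hr'] at ht
    linear_combination ht)
  apply hμ
  fin_cases j
  · exact this.1
  · exact this.2.1
  · exact this.2.2

end

/-- The identity component of the closure of `L` in `𝒜(ℝ)`. -/
noncomputable def closureZero {K : Type} [Field K] (L : Subgroup Kˣ) : Subgroup (realPts K) :=
  idComp (L.map (emb K)).topologicalClosure

/-- `H` is a subgroup of finite index in `H'`. -/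
def FiniteIndexIn {G : Type} [Group G] (H H' : Subgroup G) : Prop := H ≤ H' ∧ H.relIndex H' ≠ 0

theorem result :
    ∃ (K : Type) (_ : Field K) (_ : NumberField K) (L : Subgroup Kˣ), L.FG ∧
      ∀ B : Subgroup (CPts K), IsAlgebraic B →
        ¬ FiniteIndexIn (closureZero L) (B.subgroupOf (realPts K)) := by
  obtain ⟨s, S, h0, h1, hs, hS, hd, hr⟩ := exists_roots
  haveI : FiniteDimensional ℚ (IntermediateField.adjoin ℚ (Set.range S)) :=
    IntermediateField.finiteDimensional_adjoin (by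
      rintro _ ⟨j, rfl⟩
      exact IsIntegral.tower_top (R := ℤ) ⟨fZ, fZ_monic, by
        rw [← Polynomial.aeval_def, aeval_fZ, hS]⟩)
  haveI : NumberField (IntermediateField.adjoin ℚ (Set.range S)) := ⟨⟩
  refine ⟨IntermediateField.adjoin ℚ (Set.range S), inferInstance, inferInstance,
    main h0 h1 hs (fun j => ⟨S j, IntermediateField.subset_adjoin _ _ ⟨j, rfl⟩⟩) ?_ ?_ hr⟩
  · intro j
    apply (algebraMap (IntermediateField.adjoin ℚ (Set.range S)) ℂ).injective
    simp only [map_sub, map_add, map_mul, map_pow, map_ofNat, map_zero]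
    exact hS j
  · intro i j h
    exact hd i j (by simpa using congrArg Subtype.val h)

end Pool.Agent.Results.MP_7de521_nt.SkewTorus
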